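import Pool.Agent.Y271.RO.Stm
import Pool.Agent.Y77.NK.ADJ

/-!
# Project RO, part ESS: two points of the essential spectrum, or scalar plus compact
-/

set_option autoImplicit false

namespace Pool.Agent.Y932.RO.ESS

open MeasureTheory Set Metric Filter Topology
open scoped InnerProductSpace ENNReal NNReal ComplexConjugate
open Pool.Agent.Y283.NK (IsMul)
open Pool.Agent.Y271.RO (Ess)

section
variable {S : Type} [MeasurableSpace S] {μ : Measure S}

/-- the vectors carried by `φ⁻¹ A` -/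
def V (μ : Measure S) (φ : S → ℂ) (A : Set ℂ) : Submodule ℂ (Lp ℂ 2 μ) where
  carrier := {x | ∀ᵐ s ∂μ, φ s ∉ A → x s = 0}
  add_mem' := by
    intro a b ha hb
    filter_upwards [ha, hb, Lp.coeFn_add a b] with s h1 h2 h3 h4
    rw [h3, Pi.add_apply, h1 h4, h2 h4, add_zero]
  zero_mem' := by
    filter_upwards [Lp.coeFn_zero ℂ 2 μ] with s h1 _
    rw [h1]
    rfl
  smul_mem' := by
    intro c x hx
    filter_upwards [hx, Lp.coeFn_smul c x] with s h1 h2 h3
    rw [h2, Pi.smul_apply, h1 h3, smul_zero]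

theorem mem_V {φ : S → ℂ} {A : Set ℂ} {x : Lp ℂ 2 μ} :
    x ∈ V μ φ A ↔ ∀ᵐ s ∂μ, φ s ∉ A → x s = 0 := Iff.rfl

theorem V_mono {φ : S → ℂ} {A B : Set ℂ} (h : A ⊆ B) : V μ φ A ≤ V μ φ B := by
  intro x hx
  filter_upwards [mem_V.1 hx] with s h1 h2
  exact h1 fun h3 => h2 (h h3)

/-- multiplication by the indicator of `φ⁻¹ A` -/
noncomputable def P (μ : Measure S) {φ : S → ℂ} (hφ : Measurable φ) {A : Set ℂ} (hA : MeasurableSet A) :
    Lp ℂ 2 μ →L[ℂ] Lp ℂ 2 μ :=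
  LinearMap.mkContinuous
    { toFun := fun x => ((Lp.memLp x).indicator (hφ hA)).toLp _
      map_add' := by
        intro x y
        ext1
        filter_upwards [((Lp.memLp (x + y)).indicator (hφ hA)).coeFn_toLp,
          ((Lp.memLp x).indicator (hφ hA)).coeFn_toLp, ((Lp.memLp y).indicator (hφ hA)).coeFn_toLp,
          Lp.coeFn_add x y, Lp.coeFn_add (((Lp.memLp x).indicator (hφ hA)).toLp _)
            (((Lp.memLp y).indicator (hφ hA)).toLp _)] with s h1 h2 h3 h4 h5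
        rw [h5, Pi.add_apply, h1, h2, h3]
        by_cases hs : s ∈ φ ⁻¹' A
        · rw [indicator_of_mem hs, indicator_of_mem hs, indicator_of_mem hs, h4, Pi.add_apply]
        · rw [indicator_of_notMem hs, indicator_of_notMem hs, indicator_of_notMem hs, add_zero]
      map_smul' := by
        intro c x
        ext1
        filter_upwards [((Lp.memLp (c • x)).indicator (hφ hA)).coeFn_toLp,
          ((Lp.memLp x).indicator (hφ hA)).coeFn_toLp,
          Lp.coeFn_smul c x, Lp.coeFn_smul c (((Lp.memLp x).indicator (hφ hA)).toLp _)]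
          with s h1 h2 h4 h5
        rw [RingHom.id_apply, h5, Pi.smul_apply, h1, h2]
        by_cases hs : s ∈ φ ⁻¹' A
        · rw [indicator_of_mem hs, indicator_of_mem hs, h4, Pi.smul_apply]
        · rw [indicator_of_notMem hs, indicator_of_notMem hs, smul_zero] } 1 (by
      intro x
      refine Lp.norm_le_mul_norm_of_ae_le_mul ?_
      filter_upwards [((Lp.memLp x).indicator (hφ hA)).coeFn_toLp] with s h1
      rw [one_mul]
      show ‖(((Lp.memLp x).indicator (hφ hA)).toLp _ : Lp ℂ 2 μ) s‖ ≤ _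
      rw [h1]
      exact norm_indicator_le_norm_self _ _)

theorem P_coe {φ : S → ℂ} (hφ : Measurable φ) {A : Set ℂ} (hA : MeasurableSet A) (x : Lp ℂ 2 μ) :
    ⇑(P μ hφ hA x) =ᵐ[μ] (φ ⁻¹' A).indicator x :=
  ((Lp.memLp x).indicator (hφ hA)).coeFn_toLp

theorem P_mem {φ : S → ℂ} (hφ : Measurable φ) {A : Set ℂ} (hA : MeasurableSet A) (x : Lp ℂ 2 μ) :
    P μ hφ hA x ∈ V μ φ A := by
  rw [mem_V]
  filter_upwards [P_coe hφ hA x] with s h1 h2
  rw [h1, indicator_of_notMem (show s ∉ φ ⁻¹' A from h2)]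

/-- finite dimensional spaces of vectors over a union -/
theorem V_union {φ : S → ℂ} (hφ : Measurable φ) {A B : Set ℂ} (hA : MeasurableSet A) :
    V μ φ (A ∪ B) ≤ V μ φ A ⊔ V μ φ B := by
  intro x hx
  rw [Submodule.mem_sup]
  refine ⟨P μ hφ hA x, P_mem hφ hA x, x - P μ hφ hA x, ?_, by abel⟩
  rw [mem_V]
  filter_upwards [P_coe hφ hA x, mem_V.1 hx, Lp.coeFn_sub x (P μ hφ hA x)] with s h1 h2 h3 h4
  rw [h3, Pi.sub_apply, h1]
  by_cases hs : φ s ∈ A
  · rw [indicator_of_mem (show s ∈ φ ⁻¹' A from hs), sub_self]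
  · rw [indicator_of_notMem (show s ∉ φ ⁻¹' A from hs), sub_zero]
    exact h2 fun h => h.elim hs h4

theorem V_empty (φ : S → ℂ) : V μ φ ∅ = ⊥ := by
  rw [eq_bot_iff]
  intro x hx
  rw [Submodule.mem_bot]
  ext1
  filter_upwards [mem_V.1 hx, Lp.coeFn_zero ℂ 2 μ] with s h1 h2
  rw [h1 (notMem_empty _), h2]
  rfl

/-- compact sets without essential points -/
theorem V_compact {φ : S → ℂ} (hφ : Measurable φ) {K : Set ℂ} (hK : IsCompact K)
    (h : ∀ c ∈ K, ∃ ρ : ℝ, 0 < ρ ∧ FiniteDimensional ℂ (V μ φ (ball c ρ))) :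
    FiniteDimensional ℂ (V μ φ K) := by
  have h1 : ∃ K' : Set ℂ, K ⊆ K' ∧ MeasurableSet K' ∧ FiniteDimensional ℂ (V μ φ K') := by
    refine hK.induction_on (p := fun K => ∃ K' : Set ℂ, K ⊆ K' ∧ MeasurableSet K' ∧
      FiniteDimensional ℂ (V μ φ K')) ?_ ?_ ?_ ?_
    · refine ⟨∅, subset_rfl, MeasurableSet.empty, ?_⟩
      rw [V_empty]
      infer_instance
    · rintro s t hst ⟨K', h1, h2, h3⟩
      exact ⟨K', hst.trans h1, h2, h3⟩
    · rintro s t ⟨K1, h1, h2, h3⟩ ⟨K2, h4, h5, h6⟩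
      refine ⟨K1 ∪ K2, union_subset_union h1 h4, h2.union h5, ?_⟩
      exact Submodule.finiteDimensional_of_le (V_union hφ h2)
    · intro c hc
      obtain ⟨ρ, hρ, hfd⟩ := h c hc
      exact ⟨ball c ρ, mem_nhdsWithin_of_mem_nhds (ball_mem_nhds c hρ), ball c ρ, subset_rfl,
        measurableSet_ball, hfd⟩
  obtain ⟨K', h2, -, h4⟩ := h1
  exact Submodule.finiteDimensional_of_le (V_mono h2)

/-- a unit vector orthogonal to finitely many vectors -/
theorem unit_vec {H : Type} [NormedAddCommGroup H] [InnerProductSpace ℂ H] (W : Submodule ℂ H)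
    (hW : ¬ FiniteDimensional ℂ W) (s : Finset H) :
    ∃ y ∈ W, ‖y‖ = 1 ∧ ∀ x ∈ s, ⟪x, y⟫_ℂ = 0 := by
  let f : W →ₗ[ℂ] (s → ℂ) := LinearMap.pi fun x => ((innerSL ℂ (x : H)).toLinearMap).comp W.subtype
  have hf : ¬ Function.Injective f := fun h => hW (FiniteDimensional.of_injective f h)
  have hk : ∃ y : W, f y = 0 ∧ y ≠ 0 := by
    by_contra hcon
    push Not at hcon
    exact hf ((injective_iff_map_eq_zero f).2 hcon)
  obtain ⟨y, hy, hy0⟩ := hk
  have hy0' : (y : H) ≠ 0 := fun h => hy0 (Subtype.ext h)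
  have hn : ‖(y : H)‖ ≠ 0 := norm_ne_zero_iff.2 hy0'
  refine ⟨((‖(y : H)‖⁻¹ : ℝ) : ℂ) • (y : H), W.smul_mem _ y.2, ?_, ?_⟩
  · rw [norm_smul, Complex.norm_real, norm_inv, norm_norm, inv_mul_cancel₀ hn]
  · intro x hx
    have h1 : f y ⟨x, hx⟩ = 0 := by rw [hy]; rfl
    have h2 : ⟪x, (y : H)⟫_ℂ = 0 := h1
    rw [inner_smul_right, h2, mul_zero]

/-- points with infinite dimensional spaces are in the essential spectrum -/
theorem ess_of [SigmaFinite μ] {φ : S → ℂ} {N : Lp ℂ 2 μ →L[ℂ] Lp ℂ 2 μ} (hN : IsMul φ N) (c : ℂ)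
    (h : ∀ ρ : ℝ, 0 < ρ → ¬ FiniteDimensional ℂ (V μ φ (ball c ρ))) : Ess N c := by
  classical
  obtain ⟨F, hF, hF'⟩ := exists_seq_of_forall_finset_exists
    (α := ℕ × Lp ℂ 2 μ) (fun p => p.2 ∈ V μ φ (ball c (1 / ((p.1 : ℝ) + 1))) ∧ ‖p.2‖ = 1)
    (fun p q => p.1 < q.1 ∧ ⟪p.2, q.2⟫_ℂ = 0) (by
      intro s _
      obtain ⟨y, hy, hy1, hy2⟩ := unit_vec (V μ φ (ball c (1 / (((s.sup Prod.fst + 1 : ℕ) : ℝ) + 1))))
        (h _ (by positivity)) (s.image Prod.snd)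
      refine ⟨(s.sup Prod.fst + 1, y), ⟨hy, hy1⟩, fun x hx => ⟨?_, ?_⟩⟩
      · exact Nat.lt_succ_of_le (Finset.le_sup (f := Prod.fst) hx)
      · exact hy2 _ (Finset.mem_image_of_mem _ hx))
  have hmono : StrictMono fun n => (F n).1 := strictMono_nat_of_lt_succ fun n =>
    (hF' n (n + 1) (Nat.lt_succ_self n)).1
  have hge : ∀ n, n ≤ (F n).1 := fun n => hmono.id_le n
  have horth : Orthonormal ℂ fun n => (F n).2 := by
    refine ⟨fun n => (hF n).2, ?_⟩
    intro m n hmn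
    rcases lt_or_gt_of_ne hmn with h1 | h1
    · exact (hF' m n h1).2
    · exact inner_eq_zero_symm.1 (hF' n m h1).2
  have hlim : Tendsto (fun n : ℕ => 1 / ((n : ℝ) + 1)) atTop (𝓝 0) :=
    tendsto_one_div_add_atTop_nhds_zero_nat
  have hle : ∀ n : ℕ, 1 / (((F n).1 : ℝ) + 1) ≤ 1 / ((n : ℝ) + 1) := by
    intro n
    have : (n : ℝ) ≤ (F n).1 := by exact_mod_cast hge n
    exact one_div_le_one_div_of_le (by positivity) (by linarith)
  have key : ∀ (ψ : S → ℂ) (T : Lp ℂ 2 μ →L[ℂ] Lp ℂ 2 μ) (c' : ℂ), IsMul ψ T →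
      (∀ s, ‖ψ s - c'‖ = ‖φ s - c‖) →
      Tendsto (fun n => T (F n).2 - c' • (F n).2) atTop (𝓝 0) := by
    intro ψ T c' hT hψ
    refine squeeze_zero_norm (fun n => ?_) hlim
    refine le_trans ?_ (hle n)
    have h1 : ‖T (F n).2 - c' • (F n).2‖ ≤ 1 / (((F n).1 : ℝ) + 1) * ‖(F n).2‖ := by
      refine Lp.norm_le_mul_norm_of_ae_le_mul ?_
      filter_upwards [mem_V.1 (hF n).1, hT.eq (F n).2, Lp.coeFn_smul c' (F n).2,
        Lp.coeFn_sub (T (F n).2) (c' • (F n).2)] with s h1 h2 h3 h4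
      rw [h4, Pi.sub_apply, h2, h3, Pi.smul_apply, smul_eq_mul, ← sub_mul, norm_mul, hψ]
      by_cases hs : φ s ∈ ball c (1 / (((F n).1 : ℝ) + 1))
      · rw [mem_ball, dist_eq_norm] at hs
        exact mul_le_mul_of_nonneg_right hs.le (norm_nonneg _)
      · rw [h1 hs, norm_zero, mul_zero, mul_zero]
    rwa [(hF n).2, mul_one] at h1
  refine ⟨fun n => (F n).2, fun n => (hF n).2, fun w => ?_, ?_, ?_⟩
  · have h1 := (horth.inner_products_summable (x := w)).tendsto_atTop_zero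
    have h2 : Tendsto (fun n => ‖⟪(F n).2, w⟫_ℂ‖) atTop (𝓝 0) := by
      have h3 := h1.sqrt
      simpa [Real.sqrt_sq] using h3
    rw [tendsto_zero_iff_norm_tendsto_zero]
    refine h2.congr fun n => ?_
    exact norm_inner_symm _ _
  · exact key φ N c hN fun s => rfl
  · refine key (fun s => conj (φ s)) _ (conj c) (Pool.Agent.Y77.NK.main_adj S μ φ N hN).1 fun s => ?_
    rw [← map_sub, Complex.norm_conj]

end

theorem main : Pool.Agent.Y271.RO.S_ESS := by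
  intro S _ μ _ φ N hN
  by_cases hE : ∃ a b : ℂ, a ≠ b ∧ Ess N a ∧ Ess N b
  · exact Or.inl hE
  right
  -- at most one essential point
  obtain ⟨a, ha⟩ : ∃ a : ℂ, ∀ c, c ≠ a → ∃ ρ : ℝ, 0 < ρ ∧ FiniteDimensional ℂ (V μ φ (ball c ρ)) := by
    by_cases h1 : ∃ a : ℂ, ∀ ρ : ℝ, 0 < ρ → ¬ FiniteDimensional ℂ (V μ φ (ball a ρ))
    · obtain ⟨a, ha⟩ := h1
      refine ⟨a, fun c hc => ?_⟩
      by_contra hcon
      push Not at hcon
      exact hE ⟨c, a, hc, ess_of hN c hcon, ess_of hN a ha⟩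
    · push Not at h1
      exact ⟨0, fun c _ => h1 c⟩
  obtain ⟨M, hM⟩ := hN.bdd
  have hφ := hN.meas
  refine ⟨a, ?_⟩
  have hAm : ∀ n : ℕ, MeasurableSet (ball a (1 / ((n : ℝ) + 1)))ᶜ := fun n => measurableSet_ball.compl
  set G : ℕ → (Lp ℂ 2 μ →L[ℂ] Lp ℂ 2 μ) := fun n =>
    (N - a • (1 : Lp ℂ 2 μ →L[ℂ] Lp ℂ 2 μ)).comp (P μ hφ (hAm n)) with hG
  have hlim : Tendsto (fun n : ℕ => 1 / ((n : ℝ) + 1)) atTop (𝓝 0) :=
    tendsto_one_div_add_atTop_nhds_zero_nat
  refine isCompactOperator_of_tendsto (l := atTop) (F := G) ?_ (Eventually.of_forall fun n => ?_)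
  · rw [tendsto_iff_norm_sub_tendsto_zero]
    refine squeeze_zero (fun n => norm_nonneg _) (fun n => ?_) hlim
    refine ContinuousLinearMap.opNorm_le_bound _ (by positivity) fun x => ?_
    refine Lp.norm_le_mul_norm_of_ae_le_mul ?_
    set y := P μ hφ (hAm n) x with hy
    have e1 : (G n - (N - a • (1 : Lp ℂ 2 μ →L[ℂ] Lp ℂ 2 μ))) x = (N y - a • y) - (N x - a • x) := rfl
    rw [e1]
    filter_upwards [P_coe hφ (hAm n) x, hN.eq x, hN.eq y, Lp.coeFn_smul a x, Lp.coeFn_smul a y,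
      Lp.coeFn_sub (N x) (a • x), Lp.coeFn_sub (N y) (a • y),
      Lp.coeFn_sub (N y - a • y) (N x - a • x)] with s h1 h2 h3 h4 h5 h6 h7 h8
    rw [h8, Pi.sub_apply, h7, h6, Pi.sub_apply, Pi.sub_apply, h2, h3, h4, h5, Pi.smul_apply,
      Pi.smul_apply, smul_eq_mul, smul_eq_mul, h1]
    by_cases hs : φ s ∈ ball a (1 / ((n : ℝ) + 1))
    · rw [indicator_of_notMem (show s ∉ φ ⁻¹' (ball a (1 / ((n : ℝ) + 1)))ᶜ from fun h => h hs)]
      have e2 : φ s * 0 - a * 0 - (φ s * x s - a * x s) = -((φ s - a) * x s) := by ring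
      rw [e2, norm_neg, norm_mul]
      rw [mem_ball, dist_eq_norm] at hs
      exact mul_le_mul_of_nonneg_right hs.le (norm_nonneg _)
    · rw [indicator_of_mem (show s ∈ φ ⁻¹' (ball a (1 / ((n : ℝ) + 1)))ᶜ from hs), sub_self, norm_zero]
      positivity
  · -- finite rank
    set A : Set ℂ := (ball a (1 / ((n : ℝ) + 1)))ᶜ with hA
    have hcl : IsClosed A := isOpen_ball.isClosed_compl
    have hfd : FiniteDimensional ℂ (V μ φ (A ∩ closedBall 0 M)) := by
      refine V_compact hφ ((isCompact_closedBall 0 M).inter_left hcl) fun c hc => ha c ?_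
      rintro rfl
      exact hc.1 (mem_ball_self (by positivity))
    have hP : ∀ x, P μ hφ (hAm n) x ∈ V μ φ (A ∩ closedBall 0 M) := by
      intro x
      filter_upwards [mem_V.1 (P_mem hφ (hAm n) x)] with s h1 h2
      refine h1 fun h3 => h2 ⟨h3, ?_⟩
      rw [mem_closedBall_zero_iff]
      exact hM s
    have hprop : ProperSpace (V μ φ (A ∩ closedBall 0 M)) := FiniteDimensional.proper ℂ _
    have h1 : IsCompactOperator (⇑((P μ hφ (hAm n)).codRestrict (V μ φ (A ∩ closedBall 0 M)) hP)) :=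
      isCompactOperator_of_locallyCompactSpace_dom _
    have h2 := h1.clm_comp ((N - a • (1 : Lp ℂ 2 μ →L[ℂ] Lp ℂ 2 μ)).comp
      (V μ φ (A ∩ closedBall 0 M)).subtypeL)
    exact h2

end Pool.Agent.Y932.RO.ESS
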